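import Pool.Agent.H94.T3.Targets

/-!
(T3), module FIB: functions with frequencies in a neighbourhood of the cone.
-/

set_option autoImplicit false

namespace Pool.Agent.H94.T3

open MeasureTheory Set
open Pool.Agent.H83.G
open scoped ENNReal NNReal RealInnerProductSpace

/-- the fibre of `G` over the translate of the cone -/
noncomputable def sh {m : ℕ} (G : Z m → ℂ) (τ : ℝ) (ζ : ℝ × E m) : ℂ :=
  G (ζ.1, ζ.2, ‖ζ.2‖ ^ 2 / ζ.1 + τ)

private theorem cont_shear {m : ℕ} {α : Type*} [TopologicalSpace α] (F : Z m → α) (o : α)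
    (hF : Continuous F) (h0 : ∀ ζ : Z m, ζ.1 < 1 / 4 → F ζ = o) :
    Continuous (fun p : (ℝ × E m) × ℝ => F (p.1.1, p.1.2, ‖p.1.2‖ ^ 2 / p.1.1 + p.2)) := by
  rw [continuous_iff_continuousAt]
  intro p
  by_cases hp : p.1.1 < 1 / 4
  · have hU : {q : (ℝ × E m) × ℝ | q.1.1 < 1 / 4} ∈ nhds p :=
      (isOpen_lt (by fun_prop) continuous_const).mem_nhds hp
    have h1 : (fun p : (ℝ × E m) × ℝ => F (p.1.1, p.1.2, ‖p.1.2‖ ^ 2 / p.1.1 + p.2)) =ᶠ[nhds p]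
        fun _ => o := by
      filter_upwards [hU] with q hq
      exact h0 _ hq
    exact (continuousAt_congr h1).2 continuousAt_const
  · have hp' : p.1.1 ≠ 0 := by
      intro h
      rw [h] at hp
      norm_num at hp
    have h1 : ContinuousAt (fun q : (ℝ × E m) × ℝ => ‖q.1.2‖ ^ 2 / q.1.1) p :=
      ContinuousAt.div (by fun_prop) (by fun_prop) hp'
    refine hF.continuousAt.comp ?_
    exact (by fun_prop : ContinuousAt (fun q : (ℝ × E m) × ℝ => q.1.1) p).prodMk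
      ((by fun_prop : ContinuousAt (fun q : (ℝ × E m) × ℝ => q.1.2) p).prodMk
        (h1.add (by fun_prop)))

theorem cont_sh {m : ℕ} {G : Z m → ℂ} (hG : TC G) (h0 : ∀ ζ, G ζ ≠ 0 → 1 / 4 ≤ ζ.1) :
    Continuous (fun p : (ℝ × E m) × ℝ => sh G p.2 p.1) :=
  cont_shear G 0 hG.1.continuous fun ζ hζ => by
    by_contra h
    exact absurd (h0 ζ h) (not_le.2 hζ)

theorem cont_sh' {m : ℕ} {G : Z m → ℂ} (hG : TC G) (h0 : ∀ ζ, G ζ ≠ 0 → 1 / 4 ≤ ζ.1) (τ : ℝ) :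
    Continuous (sh G τ) := (cont_sh hG h0).comp (Continuous.prodMk_left τ)

private theorem meas_shear {m : ℕ} :
    Measurable (fun p : (ℝ × E m) × ℝ => ((p.1.1, p.1.2, ‖p.1.2‖ ^ 2 / p.1.1 + p.2) : Z m)) := by
  fun_prop

private theorem lint_assoc {m : ℕ} (F : Z m → ℝ≥0∞) (hF : Measurable F) :
    ∫⁻ ζ, F ζ = ∫⁻ p : ℝ × E m, ∫⁻ b : ℝ, F (p.1, p.2, b) := by
  have h1 := measurePreserving_prodAssoc (volume : Measure ℝ) (volume : Measure (E m))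
    (volume : Measure ℝ)
  have h2 : ∫⁻ ζ, F ζ = ∫⁻ q : (ℝ × E m) × ℝ, F (q.1.1, q.1.2, q.2) := by
    have := h1.lintegral_comp hF
    exact this.symm
  rw [h2]
  have h3 : Measurable (fun q : (ℝ × E m) × ℝ => F (q.1.1, q.1.2, q.2)) := by
    refine hF.comp ?_
    fun_prop
  exact lintegral_prod _ h3.aemeasurable

theorem lint_sh {m : ℕ} (F : Z m → ℝ≥0∞) (hF : Measurable F) :
    ∫⁻ ζ, F ζ = ∫⁻ τ : ℝ, ∫⁻ p : ℝ × E m, F (p.1, p.2, ‖p.2‖ ^ 2 / p.1 + τ) := by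
  rw [lint_assoc F hF]
  have h1 : ∀ p : ℝ × E m, ∫⁻ b : ℝ, F (p.1, p.2, b) =
      ∫⁻ τ : ℝ, F (p.1, p.2, ‖p.2‖ ^ 2 / p.1 + τ) := by
    intro p
    exact (lintegral_add_left_eq_self (fun b => F (p.1, p.2, b)) (‖p.2‖ ^ 2 / p.1)).symm
  simp_rw [h1]
  exact lintegral_lintegral_swap (hF.comp meas_shear).aemeasurable

theorem cs_sh {m : ℕ} {G : Z m → ℂ} {c : E m} {D ρ : ℝ}
    (hs : ∀ ζ, G ζ ≠ 0 → 1 / 4 ≤ ζ.1 ∧ ζ.1 ≤ 8 ∧ ‖ζ.1⁻¹ • ζ.2.1 - c‖ ≤ D ∧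
      |ζ.2.2 - ‖ζ.2.1‖ ^ 2 / ζ.1| ≤ ρ) (p : (ℝ × E m) × ℝ) (hp : sh G p.2 p.1 ≠ 0) :
    ‖p‖ ≤ max (max 8 (8 * (‖c‖ + D))) ρ ∧ |p.2| ≤ ρ := by
  have h := hs _ hp
  simp only at h
  obtain ⟨h1, h2, h3, h4⟩ := h
  have h5 : |p.2| ≤ ρ := by
    have : ‖p.1.2‖ ^ 2 / p.1.1 + p.2 - ‖p.1.2‖ ^ 2 / p.1.1 = p.2 := by ring
    rwa [this] at h4
  refine ⟨?_, h5⟩
  have ha : 0 < p.1.1 := by linarith
  have h6 : ‖p.1.1⁻¹ • p.1.2‖ ≤ ‖c‖ + D := by
    have : p.1.1⁻¹ • p.1.2 = c + (p.1.1⁻¹ • p.1.2 - c) := by abel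
    rw [this]
    exact (norm_add_le _ _).trans (by linarith)
  have h7 : ‖p.1.2‖ ≤ 8 * (‖c‖ + D) := by
    have h8 : p.1.2 = p.1.1 • (p.1.1⁻¹ • p.1.2) := by
      rw [smul_smul, mul_inv_cancel₀ ha.ne', one_smul]
    rw [h8, norm_smul, Real.norm_eq_abs, abs_of_pos ha]
    exact mul_le_mul h2 h6 (norm_nonneg _) (by norm_num)
  rw [Prod.norm_def, Prod.norm_def]
  refine max_le_max (max_le_max ?_ h7) ?_
  · rw [Real.norm_eq_abs, abs_of_pos ha]; exact h2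
  · rw [Real.norm_eq_abs]; exact h5

theorem norm_e (x : ℝ) : ‖e x‖ = 1 := by
  unfold e
  exact Complex.norm_exp_ofReal_mul_I _

theorem e_add (x y : ℝ) : e (x + y) = e x * e y := by
  unfold e
  rw [← Complex.exp_add]
  congr 1
  push_cast
  ring

theorem cont_e : Continuous e := by
  unfold e
  fun_prop

theorem int_sh {m : ℕ} {G : Z m → ℂ} (hG : TC G) {c : E m} {D ρ : ℝ}
    (hs : ∀ ζ, G ζ ≠ 0 → 1 / 4 ≤ ζ.1 ∧ ζ.1 ≤ 8 ∧ ‖ζ.1⁻¹ • ζ.2.1 - c‖ ≤ D ∧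
      |ζ.2.2 - ‖ζ.2.1‖ ^ 2 / ζ.1| ≤ ρ) (z : Z m) :
    TF G z = ∫ τ : ℝ, e (z.2.2 * τ) * V (sh G τ) z := by
  have h0 : ∀ ζ, G ζ ≠ 0 → 1 / 4 ≤ ζ.1 := fun ζ hζ => (hs ζ hζ).1
  -- the integrand in the coordinates `(a, ξ)`, `b`
  have hFc : Continuous (fun ζ : Z m => e (ph z ζ) * G ζ) := by
    refine (cont_e.comp ?_).mul hG.1.continuous
    unfold ph
    fun_prop
  have hFi : Integrable (fun ζ : Z m => e (ph z ζ) * G ζ) :=
    hFc.integrable_of_hasCompactSupport (hG.2.mul_left)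
  have hmp := measurePreserving_prodAssoc (volume : Measure ℝ) (volume : Measure (E m))
    (volume : Measure ℝ)
  have h1 : TF G z = ∫ q : (ℝ × E m) × ℝ, e (ph z (q.1.1, q.1.2, q.2)) * G (q.1.1, q.1.2, q.2) := by
    unfold TF
    exact (hmp.integral_comp' (fun ζ : Z m => e (ph z ζ) * G ζ)).symm
  have hi1 : Integrable (fun q : (ℝ × E m) × ℝ =>
      e (ph z (q.1.1, q.1.2, q.2)) * G (q.1.1, q.1.2, q.2)) :=
    (hmp.integrable_comp_emb MeasurableEquiv.prodAssoc.measurableEmbedding).2 hFi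
  have h2 : TF G z = ∫ p : ℝ × E m, ∫ b : ℝ, e (ph z (p.1, p.2, b)) * G (p.1, p.2, b) := by
    rw [h1]
    exact integral_prod _ hi1
  have h3 : ∀ p : ℝ × E m, ∫ b : ℝ, e (ph z (p.1, p.2, b)) * G (p.1, p.2, b) =
      ∫ τ : ℝ, e (ph z (p.1, p.2, ‖p.2‖ ^ 2 / p.1 + τ)) * sh G τ p := by
    intro p
    exact (integral_add_left_eq_self
      (fun b => e (ph z (p.1, p.2, b)) * G (p.1, p.2, b)) (‖p.2‖ ^ 2 / p.1)).symm
  simp_rw [h3] at h2
  -- the sheared integrand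
  have hc : Continuous (fun q : (ℝ × E m) × ℝ =>
      e (ph z (q.1.1, q.1.2, ‖q.1.2‖ ^ 2 / q.1.1 + q.2)) * sh G q.2 q.1) :=
    cont_shear (fun ζ : Z m => e (ph z ζ) * G ζ) 0 hFc fun ζ hζ => by
      have : G ζ = 0 := by
        by_contra h
        exact absurd (h0 ζ h) (not_le.2 hζ)
      simp only [this, mul_zero]
  have hcs : HasCompactSupport (fun q : (ℝ × E m) × ℝ =>
      e (ph z (q.1.1, q.1.2, ‖q.1.2‖ ^ 2 / q.1.1 + q.2)) * sh G q.2 q.1) := by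
    refine HasCompactSupport.of_support_subset_isCompact
      (isCompact_closedBall (0 : (ℝ × E m) × ℝ) (max (max 8 (8 * (‖c‖ + D))) ρ)) fun q hq => ?_
    rw [mem_closedBall_zero_iff]
    exact (cs_sh hs q (fun h => hq (by simp only [h, mul_zero]))).1
  have hi2 : Integrable (fun q : (ℝ × E m) × ℝ =>
      e (ph z (q.1.1, q.1.2, ‖q.1.2‖ ^ 2 / q.1.1 + q.2)) * sh G q.2 q.1)
      ((volume : Measure (ℝ × E m)).prod (volume : Measure ℝ)) :=
    hc.integrable_of_hasCompactSupport hcs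
  rw [h2, integral_integral_swap hi2]
  refine integral_congr_ae (Filter.Eventually.of_forall fun τ => ?_)
  simp only
  unfold V
  rw [← integral_const_mul]
  refine integral_congr_ae (Filter.Eventually.of_forall fun p => ?_)
  simp only
  rw [← mul_assoc, ← e_add]
  congr 2
  unfold ph
  ring

private theorem step {ι : Type} (Y : Finset ι) (f : ι → ℝ → ℝ≥0∞) (hf : ∀ z, Measurable (f z))
    (w : ι → ℝ≥0∞) (n : ℝ → ℝ≥0∞) (B : ℝ≥0∞) (hn : Measurable n)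
    (h : ∀ a, ∑ z ∈ Y, f z a * w z ≤ B * n a) :
    ∑ z ∈ Y, (∫⁻ a, f z a) * w z ≤ B * ∫⁻ a, n a := by
  have h1 : ∑ z ∈ Y, (∫⁻ a, f z a) * w z = ∫⁻ a, ∑ z ∈ Y, f z a * w z := by
    rw [lintegral_finsetSum Y fun z _ => (hf z).mul_const _]
    exact Finset.sum_congr rfl fun z _ => (lintegral_mul_const _ (hf z)).symm
  rw [h1, ← lintegral_const_mul _ hn]
  exact lintegral_mono h

theorem tri {ι : Type} (Y : Finset ι) (f : Fin 3 → ι → ℝ → ℝ≥0∞)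
    (hf : ∀ i z, Measurable (f i z)) (n : Fin 3 → ℝ → ℝ≥0∞) (B : ℝ≥0∞)
    (hn : ∀ i, Measurable (n i))
    (h : ∀ a : Fin 3 → ℝ, ∑ z ∈ Y, ∏ i, f i z (a i) ≤ B * ∏ i, n i (a i)) :
    ∑ z ∈ Y, ∏ i, ∫⁻ a, f i z a ≤ B * ∏ i, ∫⁻ a, n i a := by
  simp only [Fin.prod_univ_three] at h ⊢
  have h1 : ∀ b c : ℝ, ∑ z ∈ Y, (∫⁻ a, f 0 z a) * (f 1 z b * f 2 z c) ≤
      (B * (n 1 b * n 2 c)) * ∫⁻ a, n 0 a := by
    intro b c
    refine step Y (f 0) (hf 0) _ (n 0) _ (hn 0) fun a => ?_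
    have := h ![a, b, c]
    simp only [Matrix.cons_val_zero, Matrix.cons_val_one, Matrix.cons_val] at this
    calc _ = ∑ z ∈ Y, f 0 z a * f 1 z b * f 2 z c :=
          Finset.sum_congr rfl fun z _ => by ring
      _ ≤ _ := this
      _ = _ := by ring
  have h2 : ∀ c : ℝ, ∑ z ∈ Y, (∫⁻ b, f 1 z b) * ((∫⁻ a, f 0 z a) * f 2 z c) ≤
      (B * ((∫⁻ a, n 0 a) * n 2 c)) * ∫⁻ b, n 1 b := by
    intro c
    refine step Y (f 1) (hf 1) _ (n 1) _ (hn 1) fun b => ?_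
    calc _ = ∑ z ∈ Y, (∫⁻ a, f 0 z a) * (f 1 z b * f 2 z c) :=
          Finset.sum_congr rfl fun z _ => by ring
      _ ≤ _ := h1 b c
      _ = _ := by ring
  have h3 : ∑ z ∈ Y, (∫⁻ c, f 2 z c) * ((∫⁻ a, f 0 z a) * ∫⁻ b, f 1 z b) ≤
      (B * ((∫⁻ a, n 0 a) * ∫⁻ b, n 1 b)) * ∫⁻ c, n 2 c := by
    refine step Y (f 2) (hf 2) _ (n 2) _ (hn 2) fun c => ?_
    calc _ = ∑ z ∈ Y, (∫⁻ b, f 1 z b) * ((∫⁻ a, f 0 z a) * f 2 z c) :=
          Finset.sum_congr rfl fun z _ => by ring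
      _ ≤ _ := h2 c
      _ = _ := by ring
  calc _ = ∑ z ∈ Y, (∫⁻ c, f 2 z c) * ((∫⁻ a, f 0 z a) * ∫⁻ b, f 1 z b) :=
        Finset.sum_congr rfl fun z _ => by ring
    _ ≤ _ := h3
    _ = _ := by ring

theorem lint_sq {α : Type*} [TopologicalSpace α] [MeasurableSpace α] [OpensMeasurableSpace α]
    (μ : Measure α) [IsFiniteMeasureOnCompacts μ] (g : α → ℂ) (hg : Continuous g)
    (hs : HasCompactSupport g) :
    ∫⁻ x, ‖g x‖ₑ ^ 2 ∂μ = ENNReal.ofReal (∫ x, ‖g x‖ ^ 2 ∂μ) := by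
  have h1 : Integrable (fun x => ‖g x‖ ^ 2) μ := by
    have h2 : HasCompactSupport fun x => ‖g x‖ ^ 2 := by
      refine hs.comp_left (g := fun w : ℂ => ‖w‖ ^ 2) ?_
      simp
    exact (by fun_prop : Continuous fun x => ‖g x‖ ^ 2).integrable_of_hasCompactSupport h2
  rw [ofReal_integral_eq_lintegral_ofReal h1 (Filter.Eventually.of_forall fun x => by positivity)]
  refine lintegral_congr fun x => ?_
  rw [ENNReal.ofReal_pow (norm_nonneg _), ofReal_norm]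

/-- FIB -/
theorem pf_FIB (hTRV : T_TRV) : T_FIB := by
  intro m K ε hm hK hε
  obtain ⟨C, hC, h⟩ := hTRV m K ε hm hK hε
  refine ⟨C * 2 ^ (3 / 2 : ℝ), by positivity, ?_⟩
  intro R ρ c G z₀ Y hR hρ hc hG hs hY hYz
  have hR0 : 0 < R := by linarith
  have h0 : ∀ i, ∀ ζ, G i ζ ≠ 0 → 1 / 4 ≤ ζ.1 := fun i ζ hζ => (hs i ζ hζ).1
  -- the fibres
  have hcont : ∀ i τ, Continuous (sh (G i) τ) := fun i τ => cont_sh' (hG i) (h0 i) τ
  have hcsh : ∀ i τ, HasCompactSupport (sh (G i) τ) := by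
    intro i τ
    refine HasCompactSupport.of_support_subset_isCompact
      (isCompact_closedBall (0 : ℝ × E m) (max (max 8 (8 * (‖c i‖ + 5 / (4 * K)))) ρ))
      fun p hp => ?_
    rw [mem_closedBall_zero_iff]
    have h1 := (cs_sh (hs i) (p, τ) hp).1
    rw [Prod.norm_def] at h1
    exact (le_max_left _ _).trans h1
  have hsupp : ∀ i τ (ζ : ℝ × E m), sh (G i) τ ζ ≠ 0 → 1 / 4 ≤ ζ.1 ∧ ζ.1 ≤ 8 ∧
      ‖ζ.1⁻¹ • ζ.2 - c i‖ ≤ 5 / (4 * K) := by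
    intro i τ ζ hζ
    have h1 := hs i _ hζ
    exact ⟨h1.1, h1.2.1, h1.2.2.1⟩
  -- measurability
  have hmsh : ∀ i, Measurable (fun p : ℝ × (ℝ × E m) => sh (G i) p.1 p.2) := fun i =>
    ((cont_sh (hG i) (h0 i)).comp continuous_swap).measurable
  have hmV : ∀ i (z : Z m), Measurable (fun τ : ℝ => ‖V (sh (G i) τ) z‖ₑ) := by
    intro i z
    have h1 : Measurable (fun p : ℝ × (ℝ × E m) =>
        e (z.1 * p.2.1 + ⟪z.2.1, p.2.2⟫ + z.2.2 * (‖p.2.2‖ ^ 2 / p.2.1)) *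
          sh (G i) p.1 p.2) := by
      refine Measurable.mul ?_ (hmsh i)
      exact cont_e.measurable.comp (by fun_prop)
    have h2 := h1.stronglyMeasurable.integral_prod_right' (ν := (volume : Measure (ℝ × E m)))
    exact h2.measurable.enorm
  have hmN : ∀ i, Measurable (fun τ : ℝ =>
      ENNReal.ofReal (Real.sqrt (∫ ζ, ‖sh (G i) τ ζ‖ ^ 2))) := by
    intro i
    have h1 : Measurable (fun p : ℝ × (ℝ × E m) => ‖sh (G i) p.1 p.2‖ ^ 2) :=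
      (hmsh i).norm.pow_const 2
    have h2 := h1.stronglyMeasurable.integral_prod_right' (ν := (volume : Measure (ℝ × E m)))
    exact (h2.measurable.sqrt).ennreal_ofReal
  -- the trilinear estimate on the fibres
  have key := tri Y (fun i z τ => ‖V (sh (G i) τ) z‖ₑ) hmV
    (fun i τ => ENNReal.ofReal (Real.sqrt (∫ ζ, ‖sh (G i) τ ζ‖ ^ 2)))
    (ENNReal.ofReal (C * R ^ ε)) hmN (fun a => by
      have h1 := h R c (fun i => sh (G i) (a i)) z₀ Y hR hc (fun i => hcont i _)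
        (fun i ζ hζ => hsupp i _ ζ hζ) hY hYz
      have h2 := ENNReal.ofReal_le_ofReal h1
      rw [ENNReal.ofReal_sum_of_nonneg (fun z _ => Finset.prod_nonneg fun i _ => norm_nonneg _),
        ENNReal.ofReal_mul (by positivity),
        ENNReal.ofReal_prod_of_nonneg (fun i _ => Real.sqrt_nonneg _)] at h2
      refine le_trans (le_of_eq (Finset.sum_congr rfl fun z _ => ?_)) h2
      rw [ENNReal.ofReal_prod_of_nonneg (fun i _ => norm_nonneg _)]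
      exact Finset.prod_congr rfl fun i _ => (ofReal_norm _).symm)
  -- the integral over the fibres
  have hCS : ∀ i, ∫⁻ τ : ℝ, ENNReal.ofReal (Real.sqrt (∫ ζ, ‖sh (G i) τ ζ‖ ^ 2)) ≤
      ENNReal.ofReal ((2 * ρ) ^ (1 / 2 : ℝ) * Real.sqrt (∫ ζ, ‖G i ζ‖ ^ 2)) := by
    intro i
    have h1 : ∀ τ : ℝ, ENNReal.ofReal (Real.sqrt (∫ ζ, ‖sh (G i) τ ζ‖ ^ 2)) =
        (Icc (-ρ) ρ).indicator (fun _ => (1 : ℝ≥0∞)) τ *
          ENNReal.ofReal (Real.sqrt (∫ ζ, ‖sh (G i) τ ζ‖ ^ 2)) := by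
      intro τ
      by_cases hτ : τ ∈ Icc (-ρ) ρ
      · rw [indicator_of_mem hτ, one_mul]
      · rw [indicator_of_notMem hτ, zero_mul]
        have h2 : ∀ ζ, sh (G i) τ ζ = 0 := by
          intro ζ
          by_contra hne
          have h3 := (cs_sh (hs i) (ζ, τ) hne).2
          exact hτ (abs_le.1 h3)
        simp [h2]
    have h2 : ∀ τ : ℝ, ENNReal.ofReal (Real.sqrt (∫ ζ, ‖sh (G i) τ ζ‖ ^ 2)) ^ (2 : ℝ) =
        ∫⁻ ζ, ‖sh (G i) τ ζ‖ₑ ^ 2 := by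
      intro τ
      rw [lint_sq volume _ (hcont i τ) (hcsh i τ), ENNReal.rpow_two, ← ENNReal.ofReal_pow
        (Real.sqrt_nonneg _), Real.sq_sqrt (integral_nonneg fun ζ => by positivity)]
    calc _ = ∫⁻ τ : ℝ, (((Icc (-ρ) ρ).indicator (fun _ => (1 : ℝ≥0∞))) *
          (fun τ => ENNReal.ofReal (Real.sqrt (∫ ζ, ‖sh (G i) τ ζ‖ ^ 2)))) τ :=
          lintegral_congr h1
      _ ≤ (∫⁻ τ : ℝ, ((Icc (-ρ) ρ).indicator (fun _ => (1 : ℝ≥0∞)) τ) ^ (2 : ℝ)) ^ (1 / 2 : ℝ) *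
          (∫⁻ τ : ℝ, ENNReal.ofReal (Real.sqrt (∫ ζ, ‖sh (G i) τ ζ‖ ^ 2)) ^ (2 : ℝ)) ^
            (1 / 2 : ℝ) :=
          ENNReal.lintegral_mul_le_Lp_mul_Lq volume
            (by constructor <;> norm_num : Real.HolderConjugate 2 2)
            (measurable_const.indicator measurableSet_Icc).aemeasurable (hmN i).aemeasurable
      _ = ENNReal.ofReal (2 * ρ) ^ (1 / 2 : ℝ) * (∫⁻ ζ, ‖G i ζ‖ₑ ^ 2) ^ (1 / 2 : ℝ) := by
          congr 2
          · have h3 : ∀ τ : ℝ, ((Icc (-ρ) ρ).indicator (fun _ => (1 : ℝ≥0∞)) τ) ^ (2 : ℝ) =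
                (Icc (-ρ) ρ).indicator (fun _ => (1 : ℝ≥0∞)) τ := by
              intro τ
              by_cases hτ : τ ∈ Icc (-ρ) ρ
              · rw [indicator_of_mem hτ, ENNReal.one_rpow]
              · rw [indicator_of_notMem hτ, ENNReal.zero_rpow_of_pos (by norm_num)]
            simp_rw [h3]
            rw [lintegral_indicator measurableSet_Icc, setLIntegral_one, Real.volume_Icc]
            congr 1
            ring
          · simp_rw [h2]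
            exact (lint_sh (fun ζ => ‖G i ζ‖ₑ ^ 2)
              (((hG i).1.continuous.measurable.enorm).pow_const 2)).symm
      _ = ENNReal.ofReal ((2 * ρ) ^ (1 / 2 : ℝ) * Real.sqrt (∫ ζ, ‖G i ζ‖ ^ 2)) := by
          have h5 : 0 ≤ ∫ ζ, ‖G i ζ‖ ^ 2 := integral_nonneg fun ζ => by positivity
          rw [lint_sq volume _ (hG i).1.continuous (hG i).2,
            ENNReal.ofReal_rpow_of_nonneg (by positivity : (0 : ℝ) ≤ 2 * ρ) (by norm_num),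
            ENNReal.ofReal_rpow_of_nonneg h5 (by norm_num), ← ENNReal.ofReal_mul (by positivity),
            ← Real.sqrt_eq_rpow (∫ ζ, ‖G i ζ‖ ^ 2)]
  -- conclusion
  have hfin : ENNReal.ofReal (∑ z ∈ Y, ∏ i, ‖TF (G i) z‖) ≤
      ENNReal.ofReal (C * 2 ^ (3 / 2 : ℝ) * R ^ ε * ρ ^ (3 / 2 : ℝ) *
        ∏ i, Real.sqrt (∫ ζ, ‖G i ζ‖ ^ 2)) := by
    calc ENNReal.ofReal (∑ z ∈ Y, ∏ i, ‖TF (G i) z‖)
        = ∑ z ∈ Y, ∏ i, ‖TF (G i) z‖ₑ := by
          rw [ENNReal.ofReal_sum_of_nonneg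
            (fun z _ => Finset.prod_nonneg fun i _ => norm_nonneg _)]
          refine Finset.sum_congr rfl fun z _ => ?_
          rw [ENNReal.ofReal_prod_of_nonneg (fun i _ => norm_nonneg _)]
          exact Finset.prod_congr rfl fun i _ => ofReal_norm _
      _ ≤ ∑ z ∈ Y, ∏ i, ∫⁻ τ : ℝ, ‖V (sh (G i) τ) z‖ₑ := by
          refine Finset.sum_le_sum fun z _ => Finset.prod_le_prod' fun i _ => ?_
          rw [int_sh (hG i) (hs i) z]
          refine (enorm_integral_le_lintegral_enorm _).trans (le_of_eq ?_)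
          refine lintegral_congr fun τ => ?_
          rw [enorm_mul]
          have : ‖e (z.2.2 * τ)‖ₑ = 1 := by
            rw [← ofReal_norm, norm_e, ENNReal.ofReal_one]
          rw [this, one_mul]
      _ ≤ ENNReal.ofReal (C * R ^ ε) * ∏ i, ∫⁻ τ : ℝ,
          ENNReal.ofReal (Real.sqrt (∫ ζ, ‖sh (G i) τ ζ‖ ^ 2)) := key
      _ ≤ ENNReal.ofReal (C * R ^ ε) * ∏ i : Fin 3,
          ENNReal.ofReal ((2 * ρ) ^ (1 / 2 : ℝ) * Real.sqrt (∫ ζ, ‖G i ζ‖ ^ 2)) := by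
          gcongr with i _
          exact hCS i
      _ = _ := by
          rw [← ENNReal.ofReal_prod_of_nonneg (fun i _ => by positivity),
            ← ENNReal.ofReal_mul (by positivity)]
          congr 1
          rw [Finset.prod_mul_distrib, Finset.prod_const, Finset.card_univ, Fintype.card_fin,
            ← Real.rpow_natCast ((2 * ρ) ^ (1 / 2 : ℝ)) 3, ← Real.rpow_mul (by positivity),
            show (1 / 2 : ℝ) * ((3 : ℕ) : ℝ) = 3 / 2 by norm_num,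
            Real.mul_rpow (by norm_num) hρ]
          ring
  exact (ENNReal.ofReal_le_ofReal_iff (by positivity)).1 hfin

end Pool.Agent.H94.T3
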