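import Pool.Agent.H94.T3.Targets

/-!
# The final linear programme with (T3) for `m = 3` (dimension `d = 4`): exponent `x = 40/43`
-/

set_option autoImplicit false

namespace Pool.Agent.H94.T3

open Real

/-- the final linear programme for `m = 3`, in logarithms -/
theorem a40_log (N H q E A L R M t b a M1 : ℝ) (hL : 0 ≤ L)
    (hE : t + b + 2 * a + 3 / 2 * R ≤ L + E) (hEA : E ≤ L + 2 * A + 4 * R)
    (hHB : q + 3 * M ≤ L + 2 * t)
    (hLW : N + 3 * M1 ≤ L + q + 3 * M + 3 * b + R)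
    (hL2 : N + 2 * H ≤ L + q + M + b + 2 * a + 2 * R)
    (hRD : N + 10 / 3 * H ≤ L + 2 / 3 * M1 + 10 / 3 * a + t + b + 5 / 2 * R)
    (hT3 : N + 3 * H ≤ L + q + 3 / 2 * (M + b + 2 * a) + 9 / 4 * R)
    (hM : M1 ≤ L + M) (ha : a ≤ L + A) :
    N + 126 / 43 * H ≤ 4 * L + 40 / 43 * A + 60 / 43 * R + E := by
  linarith

/-- A40 -/
theorem pf_A40 : T_A40 := by
  intro N H q E A L R M1 M t b a hN hH hq hE0 hA hL hR hM1 hM ht hb1 ha hE hEA _hMU hHB hLW hL2
    hRD hMM haA hT3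
  have hb : ∀ i, 0 < b i := fun i => lt_of_lt_of_le one_pos (hb1 i)
  have hL0 : 0 < L := by linarith
  have hR0 : 0 < R := by linarith
  have lE : ∀ i, log (t i) + log (b i) + 2 * log (a i) + ((3 : ℕ) : ℝ) / 2 * log R ≤
      log L + log E := by
    intro i
    have h := log_le_log (mul_pos (mul_pos (mul_pos (ht i) (hb i)) (pow_pos (ha i) 2))
      (rpow_pos_of_pos hR0 _)) (hE i)
    rw [log_mul (mul_pos (mul_pos (ht i) (hb i)) (pow_pos (ha i) 2)).ne'
      (rpow_pos_of_pos hR0 _).ne', log_mul (mul_pos (ht i) (hb i)).ne' (pow_pos (ha i) 2).ne',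
      log_mul (ht i).ne' (hb i).ne', log_pow, log_rpow hR0, log_mul hL0.ne' hE0.ne'] at h
    push_cast at h
    exact h
  have lEA : log E ≤ log L + 2 * log A + (((3 : ℕ) : ℝ) + 1) * log R := by
    have h := log_le_log hE0 hEA
    rw [log_mul (mul_pos hL0 (pow_pos hA 2)).ne' (rpow_pos_of_pos hR0 _).ne',
      log_mul hL0.ne' (pow_pos hA 2).ne', log_pow, log_rpow hR0] at h
    push_cast at h
    exact h
  have lHB : ∀ i j, i ≠ j → log q + log (M i) + 2 * log (M j) ≤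
      log L + log (t i) + log (t j) := by
    intro i j hij
    have h := log_le_log (mul_pos (mul_pos hq (hM i)) (pow_pos (hM j) 2)) (hHB i j hij)
    rw [log_mul (mul_pos hL0 (ht i)).ne' (ht j).ne', log_mul hL0.ne' (ht i).ne',
      log_mul (mul_pos hq (hM i)).ne' (pow_pos (hM j) 2).ne', log_mul hq.ne' (hM i).ne',
      log_pow] at h
    push_cast at h
    exact h
  have lL2 : ∀ i, log N + 2 * log H ≤ log L + log q + log (M i) + log (b i) + 2 * log (a i) +
      (((3 : ℕ) : ℝ) + 1) / 2 * log R := by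
    intro i
    have h := log_le_log (mul_pos hN (pow_pos hH 2)) (hL2 i)
    rw [log_mul hN.ne' (pow_pos hH 2).ne', log_pow,
      log_mul (mul_pos (mul_pos (mul_pos (mul_pos hL0 hq) (hM i)) (hb i)) (pow_pos (ha i) 2)).ne'
        (rpow_pos_of_pos hR0 _).ne',
      log_mul (mul_pos (mul_pos (mul_pos hL0 hq) (hM i)) (hb i)).ne' (pow_pos (ha i) 2).ne',
      log_mul (mul_pos (mul_pos hL0 hq) (hM i)).ne' (hb i).ne',
      log_mul (mul_pos hL0 hq).ne' (hM i).ne', log_mul hL0.ne' hq.ne', log_pow,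
      log_rpow hR0] at h
    push_cast at h
    exact h
  have lRD : ∀ i, log N + 2 * (((3 : ℕ) : ℝ) + 2) / ((3 : ℕ) : ℝ) * log H ≤
      log L + 2 / ((3 : ℕ) : ℝ) * log (M1 i) + 2 * (((3 : ℕ) : ℝ) + 2) / ((3 : ℕ) : ℝ) * log (a i) + log (t i) +
      log (b i) + (((3 : ℕ) : ℝ) + 2) / 2 * log R := by
    intro i
    have p1 := rpow_pos_of_pos (hM1 i) (2 / ((3 : ℕ) : ℝ))
    have p2 := rpow_pos_of_pos (ha i) (2 * (((3 : ℕ) : ℝ) + 2) / ((3 : ℕ) : ℝ))
    have h := log_le_log (mul_pos hN (rpow_pos_of_pos hH _)) (hRD i)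
    rw [log_mul hN.ne' (rpow_pos_of_pos hH _).ne', log_rpow hH,
      log_mul (mul_pos (mul_pos (mul_pos (mul_pos hL0 p1) p2) (ht i)) (hb i)).ne'
        (rpow_pos_of_pos hR0 _).ne',
      log_mul (mul_pos (mul_pos (mul_pos hL0 p1) p2) (ht i)).ne' (hb i).ne',
      log_mul (mul_pos (mul_pos hL0 p1) p2).ne' (ht i).ne',
      log_mul (mul_pos hL0 p1).ne' p2.ne', log_mul hL0.ne' p1.ne', log_rpow (hM1 i),
      log_rpow (ha i), log_rpow hR0] at h
    exact h
  have lMM : ∀ i, log (M1 i) ≤ log L + log (M i) := by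
    intro i
    have h := log_le_log (hM1 i) (hMM i)
    rwa [log_mul hL0.ne' (hM i).ne'] at h
  have laA : ∀ i, log (a i) ≤ log L + log A := by
    intro i
    have h := log_le_log (ha i) (haA i)
    rwa [log_mul hL0.ne' hA.ne'] at h
  have lLW : log N + (log (M1 0) + log (M1 1) + log (M1 2)) ≤ log L + log q +
      ((log (M 0) + log (b 0)) + (log (M 1) + log (b 1)) + (log (M 2) + log (b 2))) +
      (((3 : ℕ) : ℝ) - 1) / 2 * log R := by
    have p0 := mul_pos (hM 0) (hb 0)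
    have p1 := mul_pos (hM 1) (hb 1)
    have p2 := mul_pos (hM 2) (hb 2)
    have h := log_le_log (mul_pos hN (mul_pos (mul_pos (hM1 0) (hM1 1)) (hM1 2))) hLW
    rw [log_mul hN.ne' (mul_pos (mul_pos (hM1 0) (hM1 1)) (hM1 2)).ne',
      log_mul (mul_pos (hM1 0) (hM1 1)).ne' (hM1 2).ne', log_mul (hM1 0).ne' (hM1 1).ne',
      log_mul (mul_pos (mul_pos hL0 hq) (mul_pos (mul_pos p0 p1) p2)).ne'
        (rpow_pos_of_pos hR0 _).ne',
      log_mul (mul_pos hL0 hq).ne' (mul_pos (mul_pos p0 p1) p2).ne', log_mul hL0.ne' hq.ne',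
      log_mul (mul_pos p0 p1).ne' p2.ne', log_mul p0.ne' p1.ne', log_mul (hM 0).ne' (hb 0).ne',
      log_mul (hM 1).ne' (hb 1).ne', log_mul (hM 2).ne' (hb 2).ne', log_rpow hR0] at h
    exact h
  have lT3 : log N + 3 * log H ≤ log L + log q + ((log (M 0) + log (b 0) + 2 * log (a 0)) +
      (log (M 1) + log (b 1) + 2 * log (a 1)) + (log (M 2) + log (b 2) + 2 * log (a 2))) / 2 +
      3 * ((3 : ℕ) : ℝ) / 4 * log R := by
    have r : ∀ i, 0 < M i * b i * a i ^ 2 := fun i =>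
      mul_pos (mul_pos (hM i) (hb i)) (pow_pos (ha i) 2)
    have r3 := mul_pos (mul_pos (r 0) (r 1)) (r 2)
    have e : ∀ i, log (M i * b i * a i ^ 2) = log (M i) + log (b i) + 2 * log (a i) := by
      intro i
      rw [log_mul (mul_pos (hM i) (hb i)).ne' (pow_pos (ha i) 2).ne', log_mul (hM i).ne'
        (hb i).ne', log_pow]
      push_cast
      ring
    have h := log_le_log (mul_pos hN (pow_pos hH 3)) hT3
    rw [log_mul hN.ne' (pow_pos hH 3).ne', log_pow,
      log_mul (mul_pos (mul_pos hL0 hq) (Real.sqrt_pos.2 r3)).ne' (rpow_pos_of_pos hR0 _).ne',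
      log_mul (mul_pos hL0 hq).ne' (Real.sqrt_pos.2 r3).ne', log_mul hL0.ne' hq.ne',
      Real.log_sqrt r3.le, log_mul (mul_pos (r 0) (r 1)).ne' (r 2).ne',
      log_mul (r 0).ne' (r 1).ne', log_rpow hR0, e 0, e 1, e 2] at h
    push_cast at h ⊢
    linarith
  have e1 : (((3 : ℕ) : ℝ) + 1) / 2 = 2 := by norm_num
  have e2 : 2 * (((3 : ℕ) : ℝ) + 2) / ((3 : ℕ) : ℝ) = 10 / 3 := by norm_num
  have e3 : 2 / ((3 : ℕ) : ℝ) = 2 / 3 := by norm_num
  have e4 : (((3 : ℕ) : ℝ) + 2) / 2 = 5 / 2 := by norm_num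
  have e5 : ((3 : ℕ) : ℝ) / 2 = 3 / 2 := by norm_num
  have e6 : (((3 : ℕ) : ℝ) + 1) = 4 := by norm_num
  have e7 : (((3 : ℕ) : ℝ) - 1) / 2 = 1 := by norm_num
  have e8 : 3 * ((3 : ℕ) : ℝ) / 4 = 9 / 4 := by norm_num
  have e9 : ((3 : ℕ) : ℝ) * (40 / 43) / 2 = 60 / 43 := by norm_num
  rw [e7] at lLW
  rw [e8] at lT3
  rw [e9]
  rw [e6] at lEA
  rw [e1] at lL2
  rw [e2, e3, e4] at lRD
  rw [e5] at lE
  have key := a40_log (log N) (log H) (log q) (log E) (log A) (log L) (log R)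
    ((log (M 0) + log (M 1) + log (M 2)) / 3) ((log (t 0) + log (t 1) + log (t 2)) / 3)
    ((log (b 0) + log (b 1) + log (b 2)) / 3) ((log (a 0) + log (a 1) + log (a 2)) / 3)
    ((log (M1 0) + log (M1 1) + log (M1 2)) / 3) (log_nonneg hL)
    (by linarith [lE 0, lE 1, lE 2]) lEA
    (by linarith [lHB 0 1 (by decide), lHB 1 2 (by decide), lHB 2 0 (by decide)])
    (by linarith [lLW]) (by linarith [lL2 0, lL2 1, lL2 2])
    (by linarith [lRD 0, lRD 1, lRD 2])
    (by linarith [lT3]) (by linarith [lMM 0, lMM 1, lMM 2]) (by linarith [laA 0, laA 1, laA 2])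
  have hpos : 0 < L ^ 4 * A ^ (40 / 43 : ℝ) * R ^ (60 / 43 : ℝ) * E := by positivity
  rw [← log_le_log_iff (mul_pos hN (rpow_pos_of_pos hH _)) hpos,
    log_mul hN.ne' (rpow_pos_of_pos hH _).ne', log_rpow hH,
    log_mul (by positivity) hE0.ne', log_mul (by positivity) (by positivity),
    log_mul (by positivity) (by positivity), log_pow, log_rpow hA, log_rpow hR0]
  push_cast
  linarith [key]

end Pool.Agent.H94.T3
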