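import Pool.Agent.H94.G4.Ten
import Pool.Agent.H94.T3.A40

/-!
(T3), module TENY: the two-ends case with trilinear restriction in the cubes. A copy of
`Pool.Agent.H94.G4.pf_TENx` with one more inequality.
-/

set_option autoImplicit false

namespace Pool.Agent.H94.T3

open Pool.Agent.H83.G Pool.Agent.H83.G.TEN Pool.Agent.H22.G4 Pool.Agent.H94.G4 MeasureTheory Set
open scoped ENNReal NNReal RealInnerProductSpace

/-- everything numerical is fed to the linear programme -/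
theorem corealgy (m : ℕ) (xx C₁₀ : ℝ) (hALG : T_ALGy m xx)
    (δ ε₀ R CL C₁ C₂ C₃ C₄ C₅ C₆ C₈ C₉ B A En N Q H c1 : ℝ) (M₁ M t b a sc : Fin 3 → ℝ)
    (hc1 : c1 = 1000 * ((m : ℝ) + 2)) (hδ : 0 < δ) (hε : 0 < ε₀) (hR1 : 1 ≤ R) (hA : 0 < A)
    (hEn : 0 < En) (hN : 0 < N) (hQ : 0 < Q) (hH : 0 < H)
    (k0 : 1 ≤ CL) (k1 : 2 * C₁ ≤ CL) (k2 : C₂ ≤ CL) (k3 : C₃ ≤ CL) (k4 : C₄ * (2 * C₉) ≤ CL)
    (k5 : C₅ ≤ CL) (k6 : 2 * C₆ ≤ CL) (k8 : C₈ ≤ CL) (kB : B ≤ CL)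
    (p1 : 1 ≤ C₁) (p2 : 1 ≤ C₂) (p3 : 1 ≤ C₃) (p4 : 1 ≤ C₄) (p5 : 1 ≤ C₅) (p6 : 1 ≤ C₆)
    (p9 : 1 ≤ C₉) (pB : 1 ≤ B)
    (hM₁ : ∀ i, 0 < M₁ i) (hM : ∀ i, 0 < M i) (ht : ∀ i, 0 < t i) (hb : ∀ i, 1 ≤ b i)
    (ha : ∀ i, 0 < a i)
    (e1 : ∀ i, t i * b i * a i ^ 2 * R ^ ((m : ℝ) / 2) ≤ En * R⁻¹)
    (e2 : En ≤ B * R ^ (lo m * δ) * (A ^ 2 * R ^ ((m : ℝ) + 2)))
    (e3 : ∀ i, Q * M i ≤ C₅ * R ^ (1 / 2 + 2 * ((m : ℝ) + 1) * δ) * t i)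
    (e4 : ∀ i j, i ≠ j → Q * M i * M j ^ 2 ≤ C₄ * (2 * (C₉ * R ^ (2 * δ))) *
      R ^ (6 * ((m : ℝ) + 2) * (δ + ε₀)) * t i * t j)
    (e5 : N * (M₁ 0 * M₁ 1 * M₁ 2) ≤ C₃ * R ^ (6 * δ) * Q *
      ((M 0 * b 0) * (M 1 * b 1) * (M 2 * b 2)) * R ^ (((m : ℝ) - 1) / 2))
    (e6 : ∀ i, N * H ^ 2 ≤ C₂ * R ^ (2 * lo m * δ) * Q * M i * b i * a i ^ 2 *
      R ^ (((m : ℝ) + 1) / 2))
    (e7 : ∀ i, N * H ^ (2 * ((m : ℝ) + 2) / m) ≤ C₁ * R ^ (4 * lo m * (δ + ε₀)) *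
      M₁ i ^ (2 / (m : ℝ)) * a i ^ (2 * ((m : ℝ) + 2) / m) * sc i * R ^ (((m : ℝ) + 2) / 2))
    (e7' : ∀ i, sc i ≤ t i * (2 * b i))
    (e8 : ∀ i, M₁ i ≤ 2 * M i * (C₆ * R ^ (((m : ℝ) + 2) * δ)))
    (e9 : ∀ i, a i ≤ C₈ * A) (p8 : 0 < C₈) (k10 : C₁₀ ≤ CL) (p10 : 1 ≤ C₁₀)
    (e10 : N * H ^ 3 ≤ C₁₀ * R ^ (2 * lo m * δ) * Q * Real.sqrt ((M 0 * b 0 * a 0 ^ 2) *
      (M 1 * b 1 * a 1 ^ 2) * (M 2 * b 2 * a 2 ^ 2)) * R ^ (3 * (m : ℝ) / 4)) :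
    N * H ^ (2 + xx) ≤ (CL * R ^ (c1 * (δ + ε₀))) ^ 4 * A ^ xx * R ^ ((m : ℝ) * xx / 2) *
      (En * R⁻¹) := by
  obtain ⟨L, hL, hL1, hE0, q1, q2, q3, q4, q5, q6, q7, q8, q9⟩ := corex m δ ε₀ R CL C₁ C₂ C₃ C₄ C₅ C₆ C₈ C₉ B A En N Q H c1 M₁ M t b a sc
    hc1 hδ hε hR1 hA hEn hN hQ hH k0 k1 k2 k3 k4 k5 k6 k8 kB p1 p2 p3 p4 p5 p6 p9 pB hM₁ hM ht
    (fun i => lt_of_lt_of_le one_pos (hb i)) ha e1 e2 e3 e4 e5 e6 e7 e7' e8 e9 p8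
  have hR0 : 0 < R := by linarith
  have hlo : lo m = 100 * ((m : ℝ) + 2) := rfl
  have f1 : C₁₀ * R ^ (2 * lo m * δ) ≤ L := by
    rw [hL]
    refine lossle hR1 (by linarith) k10 ?_
    rw [hlo, hc1]
    nlinarith [mul_nonneg (by positivity : (0:ℝ) ≤ (m : ℝ) + 2) hδ.le,
      mul_nonneg (by positivity : (0:ℝ) ≤ (m : ℝ) + 2) hε.le]
  have q10 : N * H ^ 3 ≤ L * Q * Real.sqrt ((M 0 * b 0 * a 0 ^ 2) *
      (M 1 * b 1 * a 1 ^ 2) * (M 2 * b 2 * a 2 ^ 2)) * R ^ (3 * (m : ℝ) / 4) := by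
    refine e10.trans ?_
    gcongr
  have key := hALG N H Q (En * R⁻¹) A L R M₁ M t b a hN hH hQ hE0 hA hL1 hR1 hM₁ hM ht hb ha
    q1 q2 q3 q4 q5 q6 q7 q8 q9 q10
  rw [hL] at key
  exact key

open Classical in
theorem pf_TENy (hPG4 : Pool.Agent.H22.G.T_PG4) (hHG2 : Pool.Agent.H22.G.T_HG2)
    (hMU : Pool.Agent.H22.G.T_MU) (hHB : Pool.Agent.H22.G.T_HB)
    (hCBN : T_CBN) (hTE1 : T_TE1x) (hTE2 : T_TE2) (hTE3 : T_TE3) (hTLS : T_TLS)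
    (hAMU : T_AMU) (hLWX : T_LWX) (hC3Q : T_C3Q) : T_TENy := by
  intro m L xx hm1 hxx _ _ hALG β Ψ ψ K δ ε₀ b₀ B hβ hΨ hK hδ hδ' hε hε' hb₀ hB
  obtain ⟨Ξ, χ, hΞ⟩ := hLWX m
  obtain ⟨N₁, hN₁⟩ := hTE1 m L β Ψ ψ δ ε₀ B hm1 hβ hΨ hδ hδ' hε hε' hB
  refine ⟨max N₁ (m + 3), fun N hN => ?_⟩
  have hNm : m + 3 ≤ N := (le_max_right _ _).trans hN
  obtain ⟨C₁, hC₁, h1⟩ := hN₁ N ((le_max_left _ _).trans hN)
  obtain ⟨C₂, hC₂, h2⟩ := hTE2 m L β Ψ ψ δ b₀ B hm1 hβ hΨ hδ hδ' hb₀ hB N hNm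
  obtain ⟨C₃, hC₃, h3⟩ := hTE3 m K hm1 hK
  obtain ⟨C₁₀, hC₁₀, h10⟩ := hC3Q m L β Ψ Ξ ψ χ K δ b₀ B hm1 hβ hΨ hΞ hK hδ hδ' hb₀ hB N hNm
  obtain ⟨C₄, hC₄, h4⟩ := hHB m K hK
  obtain ⟨C₅, hC₅, h5⟩ := hMU m
  obtain ⟨C₆, hC₆, h6⟩ := hHG2 m
  obtain ⟨C₇, hC₇, h7⟩ := hTLS m L N β Ψ ψ δ 1 hβ hΨ hδ (by linarith) hNm
  obtain ⟨C₈, hC₈, h8⟩ := hAMU m L N β δ hβ hδ.le hNm
  obtain ⟨C₉, hC₉, h9⟩ := logn (2 * ((m : ℝ) + 2)) B δ (by positivity) hB hδ 6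
  obtain ⟨hcb, hinc, C₀, hC₀, -, -⟩ := hCBN m
  obtain ⟨CL, C, k0, k1, k2, k3, k4, k5, k6, k8, kB, hC1, g1, g2, g4, g7, gK, g9⟩ :=
    constsx K b₀ B C₁ (C₂ + C₁₀) C₃ C₄ C₅ C₆ C₇ C₈ C₉ hK hb₀ hB hC₁ (by linarith) hC₃ hC₄ hC₅ hC₆ hC₇ hC₈ hC₉
  refine ⟨C, hC1, ?_⟩
  intro κ R A H En G c z₀ S a b l k QQ ν X hκ0 hκ hR1 hCR hA hH hAH hEn hG hc hsep hX hXz hS
    hScard hab hb hE hEB hν hνQ hνX hXQ hQz hk hXF
  have hR0 : 0 < R := lt_of_lt_of_le one_pos hR1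
  have hRδ : 1 ≤ R ^ δ := hC1.trans hCR
  have hκ' : κ ≤ 1 / 2 := hκ.trans (by norm_num)
  -- caps
  have hsq : 2 * K ≤ Real.sqrt R := by
    have e2 : R ^ δ ≤ R ^ (1 / 2 : ℝ) :=
      Real.rpow_le_rpow_of_exponent_le hR1 (hδ'.trans (by norm_num))
    rw [Real.sqrt_eq_rpow]; exact gK.trans (hCR.trans e2)
  have hsR : sR R ≤ 1 / (2 * K) := by
    unfold sR
    rw [one_div]
    exact inv_anti₀ (by linarith) hsq
  have hS3 : ∀ i, ∀ W ∈ S i, ‖ctr (sR R) W.1‖ ≤ 3 := fun i W hW => (hS i W hW).2.2.1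
  have hSsep : ∀ i j, i ≠ j → ∀ W ∈ S i, ∀ W' ∈ S j,
      1 / K ≤ ‖ctr (sR R) W.1 - ctr (sR R) W'.1‖ := fun i j hij W hW W' hW' =>
    sep_caps K (sR R) _ _ (c i) (c j) hK hsR (hS i W hW).2.2.2.1 (hS j W' hW').2.2.2.1
      (hsep i j hij)
  have e9 : C₇ / b₀ < R ^ δ := g7.trans_le hCR
  -- numbers
  obtain ⟨n, hn1, hn2⟩ := h9 R hR1
  have hSn : ∀ i, (S i).card ≤ 2 ^ n := by
    intro i
    have := (hScard i).trans hn1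
    exact_mod_cast this
  have hnear : ∀ (z : Z m) (W : Pk m), near R δ W z → Inc R δ (tb R W) (cb (Real.sqrt R) z) :=
    fun z W hW => hinc R δ W z hR1 hδ.le hW
  have hv₁1 : ∀ i, ∀ z ∈ X, 1 ≤ ((SB QQ R (R ^ (1 - ε₀)) δ (l i) (k i) (S i)
      (bl R (R ^ (1 - ε₀)) (cb (Real.sqrt R) z))).filter (fun W => near R δ W z)).card := by
    intro i z hz
    refine near_pos hb₀ hA hR1 hδ' hC₇ hAH e9 _ z ?_ (hXF z hz i)
    exact (h7 κ R A (G i) _ z hκ0 hκ' hR1 hA (hG i)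
      (fun W hW => (hS i W (mem_SB.1 hW).1).1)).1
  have hv₂1 : ∀ i, ∀ z ∈ X, 1 ≤ (((S i).image (tb R)).filter (fun T =>
      Inc R δ T (cb (Real.sqrt R) z) ∧ Sh QQ R (R ^ (1 - ε₀)) δ (l i) (k i) T
        (bl R (R ^ (1 - ε₀)) (cb (Real.sqrt R) z)))).card := by
    intro i z hz
    exact tubes_pos (S i) QQ R _ δ (l i) (k i) z _ (hnear z) (hv₁1 i z hz)
  -- pigeonhole
  obtain ⟨X₁, M₁, hX₁, hM₁, hX₁c, hX₁M⟩ := pg hPG4 n 3 X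
    (fun i z => ((SB QQ R (R ^ (1 - ε₀)) δ (l i) (k i) (S i)
      (bl R (R ^ (1 - ε₀)) (cb (Real.sqrt R) z))).filter (fun W => near R δ W z)).card)
    (fun z hz i => ⟨hv₁1 i z hz, by
      refine le_trans (Finset.card_le_card ?_) (hSn i)
      intro W hW
      exact (mem_SB.1 (Finset.mem_filter.1 hW).1).1⟩)
  obtain ⟨X₂, M₂, hX₂, hM₂, hX₂c, hX₂M⟩ := pg hPG4 n 3 X₁
    (fun i z => (((S i).image (tb R)).filter (fun T =>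
      Inc R δ T (cb (Real.sqrt R) z) ∧ Sh QQ R (R ^ (1 - ε₀)) δ (l i) (k i) T
        (bl R (R ^ (1 - ε₀)) (cb (Real.sqrt R) z)))).card)
    (fun z hz i => ⟨hv₂1 i z (hX₁ hz), by
      refine le_trans (Finset.card_le_card (Finset.filter_subset _ _)) ?_
      exact Finset.card_image_le.trans (hSn i)⟩)
  have hX₂X : X₂ ⊆ X := hX₂.trans hX₁
  have hXc' : (X.card : ℝ) ≤ C₉ * R ^ δ * X₂.card := by
    have a1 : X.card ≤ (n + 1) ^ 3 * ((n + 1) ^ 3 * X₂.card) :=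
      hX₁c.trans (Nat.mul_le_mul_left _ hX₂c)
    have a2 : (X.card : ℝ) ≤ ((n : ℝ) + 1) ^ 3 * (((n : ℝ) + 1) ^ 3 * X₂.card) := by
      exact_mod_cast a1
    calc (X.card : ℝ) ≤ ((n : ℝ) + 1) ^ 3 * (((n : ℝ) + 1) ^ 3 * X₂.card) := a2
      _ = ((n : ℝ) + 1) ^ 6 * X₂.card := by ring
      _ ≤ C₉ * R ^ δ * X₂.card := mul_le_mul_of_nonneg_right hn2 (by positivity)
  have hX₂M₁ : ∀ z ∈ X₂, ∀ i, (M₁ i : ℝ) ≤ (((SB QQ R (R ^ (1 - ε₀)) δ (l i) (k i) (S i)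
      (bl R (R ^ (1 - ε₀)) (cb (Real.sqrt R) z))).filter (fun W => near R δ W z)).card : ℝ) ∧
      (((SB QQ R (R ^ (1 - ε₀)) δ (l i) (k i) (S i)
      (bl R (R ^ (1 - ε₀)) (cb (Real.sqrt R) z))).filter (fun W => near R δ W z)).card : ℝ) ≤
        2 * (M₁ i : ℝ) := by
    intro z hz i
    have := hX₁M z (hX₂ hz) i
    exact ⟨by exact_mod_cast this.1, by exact_mod_cast this.2.le⟩
  have hX₂M₂ : ∀ z ∈ X₂, ∀ i, (M₂ i : ℝ) ≤ ((((S i).image (tb R)).filter (fun T =>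
      Inc R δ T (cb (Real.sqrt R) z) ∧ Sh QQ R (R ^ (1 - ε₀)) δ (l i) (k i) T
        (bl R (R ^ (1 - ε₀)) (cb (Real.sqrt R) z)))).card : ℝ) ∧
      ((((S i).image (tb R)).filter (fun T =>
      Inc R δ T (cb (Real.sqrt R) z) ∧ Sh QQ R (R ^ (1 - ε₀)) δ (l i) (k i) T
        (bl R (R ^ (1 - ε₀)) (cb (Real.sqrt R) z)))).card : ℝ) ≤ 2 * (M₂ i : ℝ) := by
    intro z hz i
    have := hX₂M z hz i
    exact ⟨by exact_mod_cast this.1, by exact_mod_cast this.2.le⟩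
  have hM₁' : ∀ i, (1 : ℝ) ≤ (M₁ i : ℝ) := fun i => by exact_mod_cast hM₁ i
  have hM₂' : ∀ i, (1 : ℝ) ≤ (M₂ i : ℝ) := fun i => by exact_mod_cast hM₂ i
  clear hX₁M hX₂M hX₁c hX₂c hv₁1 hv₂1
  -- empty case
  rcases Finset.eq_empty_or_nonempty X₂ with hemp | ⟨z₁, hz₁⟩
  · have h0 : (X.card : ℝ) = 0 := by
      rw [hemp] at hXc'
      have a1 : (0 : ℝ) ≤ X.card := by positivity
      simp only [Finset.card_empty, Nat.cast_zero, mul_zero] at hXc'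
      linarith
    rw [h0, zero_mul]
    positivity
  have hN0 : (0 : ℝ) < X₂.card := by
    have : 0 < X₂.card := Finset.card_pos.2 ⟨z₁, hz₁⟩
    exact_mod_cast this
  have hQ0 : (0 : ℝ) < (X₂.image (cb (Real.sqrt R))).card := by
    have : 0 < (X₂.image (cb (Real.sqrt R))).card :=
      Finset.card_pos.2 ⟨_, Finset.mem_image_of_mem _ hz₁⟩
    exact_mod_cast this
  have hSne : ∀ i, ∃ W, W ∈ S i := by
    intro i
    have a1 : (1 : ℝ) ≤ _ := (hM₂' i).trans (hX₂M₂ z₁ hz₁ i).1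
    have a2 : 0 < (((S i).image (tb R)).filter (fun T =>
      Inc R δ T (cb (Real.sqrt R) z₁) ∧ Sh QQ R (R ^ (1 - ε₀)) δ (l i) (k i) T
        (bl R (R ^ (1 - ε₀)) (cb (Real.sqrt R) z₁)))).card := by
      have : (0 : ℝ) < _ := lt_of_lt_of_le one_pos a1
      exact_mod_cast this
    obtain ⟨T, hT⟩ := Finset.card_pos.1 a2
    obtain ⟨W, hW, -⟩ := Finset.mem_image.1 (Finset.mem_filter.1 hT).1
    exact ⟨W, hW⟩
  have ht0 : ∀ i, (0 : ℝ) < ((S i).image (tb R)).card := by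
    intro i
    obtain ⟨W, hW⟩ := hSne i
    have : 0 < ((S i).image (tb R)).card := Finset.card_pos.2 ⟨_, Finset.mem_image_of_mem _ hW⟩
    exact_mod_cast this
  have hX₂sep : Sep X₂ := fun z hz z' hz' => hX z (hX₂X hz) z' (hX₂X hz')
  refine final_numx m xx δ ε₀ R CL C C₉ A En X.card X₂.card H (1000 * ((m : ℝ) + 2)) hδ hε hR1 hA
    hEn hC₉ rfl g9 k0 hH hXc' ?_
  refine corealgy m xx C₁₀ hALG δ ε₀ R CL C₁ C₂ C₃ C₄ C₅ C₆ C₈ C₉ B A En X₂.card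
    (X₂.image (cb (Real.sqrt R))).card H (1000 * ((m : ℝ) + 2)) (fun i => (M₁ i : ℝ))
    (fun i => (M₂ i : ℝ)) (fun i => (((S i).image (tb R)).card : ℝ)) b a
    (fun i => ((S i).card : ℝ)) rfl hδ hε hR1 hA hEn hN0 hQ0 hH k0 k1 (by linarith) k3 k4 k5 k6 k8 kB hC₁ hC₂
    hC₃ hC₄ hC₅ hC₆ hC₉ hB (fun i => lt_of_lt_of_le one_pos (hM₁' i))
    (fun i => lt_of_lt_of_le one_pos (hM₂' i)) ht0
    (fun i => (hab i).2) (fun i => (hab i).1) ?_ hEB ?_ ?_ ?_ ?_ ?_ ?_ ?_ ?_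
    hC₈ (by linarith) hC₁₀ ?_
  · intro i
    exact ineqE (S i) (tb R) (fun W => al N β R δ (G i) W) m (a i) (b i) R En hR1 (hab i).1
      (fun W hW => (hb i W hW).1) (fun W hW => (hS i W hW).2.2.2.2.1) (hE i)
  · -- MU
    intro i
    refine h5 R δ (M₂ i) z₀ ((S i).image (tb R)) (X₂.image (cb (Real.sqrt R)))
      (fun T q => Sh QQ R (R ^ (1 - ε₀)) δ (l i) (k i) T (bl R (R ^ (1 - ε₀)) q)) hR1 hδ.le
      ?_ ?_ ?_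
    · intro T hT
      obtain ⟨W, hW, rfl⟩ := Finset.mem_image.1 hT
      exact hS3 i W hW
    · intro q hq
      obtain ⟨z, hz, rfl⟩ := Finset.mem_image.1 hq
      exact hQz _ (hXQ z (hX₂X hz))
    · intro q hq
      obtain ⟨z, hz, rfl⟩ := Finset.mem_image.1 hq
      exact (hX₂M₂ z hz i).1
  · -- HB
    intro i j hij
    have hQcard : (QQ.card : ℝ) ≤ 2 * (C₉ * R ^ (2 * δ)) * (X₂.image (cb (Real.sqrt R))).card := by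
      have a1 : (X₂.card : ℝ) ≤ (X₂.image (cb (Real.sqrt R))).card * (2 * ν) := by
        refine card_tb' X₂ (cb (Real.sqrt R)) (2 * ν) (fun z hz => ?_)
        refine le_trans ?_ (hνX (cb (Real.sqrt R) z))
        have : (X₂.filter (fun z' => cb (Real.sqrt R) z' = cb (Real.sqrt R) z)) ⊆
          X.filter (fun z' => cb (Real.sqrt R) z' = cb (Real.sqrt R) z) :=
          Finset.filter_subset_filter _ hX₂X
        have b1 := Finset.card_le_card this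
        have b2 : ((X₂.filter (fun z' => cb (Real.sqrt R) z' = cb (Real.sqrt R) z)).card : ℝ) ≤
          ((X.filter (fun z' => cb (Real.sqrt R) z' = cb (Real.sqrt R) z)).card : ℝ) := by
          exact_mod_cast b1
        convert b2
      have a2 : ν * QQ.card ≤ ν * (2 * (C₉ * R ^ (2 * δ)) *
          (X₂.image (cb (Real.sqrt R))).card) := by
        calc ν * QQ.card ≤ R ^ δ * X.card := hνQ
          _ ≤ R ^ δ * (C₉ * R ^ δ * X₂.card) := by gcongr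
          _ ≤ R ^ δ * (C₉ * R ^ δ * ((X₂.image (cb (Real.sqrt R))).card * (2 * ν))) := by gcongr
          _ = ν * (2 * (C₉ * (R ^ δ * R ^ δ)) * (X₂.image (cb (Real.sqrt R))).card) := by ring
          _ = _ := by rw [← Real.rpow_add hR0, two_mul δ]
      exact le_of_mul_le_mul_left a2 hν
    have key := h4 R δ ε₀ (2 * (C₉ * R ^ (2 * δ))) (M₂ i) (M₂ j) z₀ ((S i).image (tb R))
      ((S j).image (tb R)) QQ (X₂.image (cb (Real.sqrt R)))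
      (Sh QQ R (R ^ (1 - ε₀)) δ (l i) (k i)) (Sh QQ R (R ^ (1 - ε₀)) δ (l j) (k j)) (k j) (l j)
      hR1 hδ.le hε.le (by linarith) (by positivity) (by positivity) (by positivity) ?_ ?_ ?_ hQz
      ?_ hQcard ?_ ?_ ?_ ?_ (g4.trans (hk j))
    · exact key
    · intro T hT
      obtain ⟨W, hW, rfl⟩ := Finset.mem_image.1 hT
      exact hS3 i W hW
    · intro T hT
      obtain ⟨W, hW, rfl⟩ := Finset.mem_image.1 hT
      exact hS3 j W hW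
    · intro T hT T' hT'
      obtain ⟨W, hW, rfl⟩ := Finset.mem_image.1 hT
      obtain ⟨W', hW', rfl⟩ := Finset.mem_image.1 hT'
      exact hSsep i j hij W hW W' hW'
    · intro q hq
      obtain ⟨z, hz, rfl⟩ := Finset.mem_image.1 hq
      exact hXQ z (hX₂X hz)
    · intro q hq
      obtain ⟨z, hz, rfl⟩ := Finset.mem_image.1 hq
      exact (hX₂M₂ z hz i).1
    · intro q hq
      obtain ⟨z, hz, rfl⟩ := Finset.mem_image.1 hq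
      exact (hX₂M₂ z hz j).1
    · intro T _ B' hB'
      exact (sh_counts QQ R (R ^ (1 - ε₀)) δ (l j) (k j) T B' hB').1
    · intro T _ B' hB'
      exact (sh_counts QQ R (R ^ (1 - ε₀)) δ (l j) (k j) T B' hB').2
  · -- LW
    exact h3 R (R ^ (1 - ε₀)) δ S b (fun i => (M₂ i : ℝ)) (fun i => (M₁ i : ℝ)) QQ l k X₂ hR1 hδ.le
      hX₂sep hS3 hSsep
      (fun i => ⟨lt_of_lt_of_le one_pos (hab i).2, lt_of_lt_of_le one_pos (hM₂' i),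
        lt_of_lt_of_le one_pos (hM₁' i)⟩)
      (fun i W hW => (hb i W hW).2) (fun z hz i => (hX₂M₂ z hz i).2)
      (fun z hz i => (hX₂M₁ z hz i).1)
  · -- L2
    intro i
    exact h2 κ R (R ^ (1 - ε₀)) A H (a i) (b i) (M₂ i) (G i) (S i) QQ (l i) (k i) X₂ hκ0 hκ hR1
      ((by linarith : C₂ ≤ C₂ + C₁₀).trans (g2.trans hCR)) hA hH hAH (hab i).1 (hab i).2 (lt_of_lt_of_le one_pos (hM₂' i)) (hG i)
      hX₂sep (fun W hW => ⟨(hS i W hW).1, (hS i W hW).2.2.2.2.2⟩) (hScard i)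
      (fun W hW => (hb i W hW).2) (fun z hz => (hX₂M₂ z hz i).2)
      (fun z hz => hXF z (hX₂X hz) i)
  · -- RD
    intro i
    exact h1 κ R A H (a i) (M₁ i) (G i) z₀ (S i) QQ (l i) (k i) X₂ hκ0 hκ hR1 (g1.trans hCR) hA hH
      (hab i).1 (hM₁' i) (hG i) hX₂sep (fun z hz => hXz z (hX₂X hz))
      (fun W hW => ⟨(hS i W hW).1, (hS i W hW).2.2.2.2.2⟩) (hScard i)
      (fun z hz => hXQ z (hX₂X hz)) hQz (fun z hz => (hX₂M₁ z hz i).2)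
      (fun z hz => hXF z (hX₂X hz) i)
  · intro i
    exact card_tb' (S i) (tb R) (2 * b i) (fun W hW => (hb i W hW).2)
  · -- M1 ≤ M
    intro i
    have a1 := count_near (S i) QQ R (R ^ (1 - ε₀)) δ (l i) (k i) z₁
      (bl R (R ^ (1 - ε₀)) (cb (Real.sqrt R) z₁)) (C₆ * R ^ (((m : ℝ) + 2) * δ)) (by positivity)
      (hnear z₁) (fun k' S' hS' => (h6 R δ hR1 hδ.le).1 k' z₁ S' hS')
    refine ((hX₂M₁ z₁ hz₁ i).1.trans a1).trans ?_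
    exact mul_le_mul_of_nonneg_right (hX₂M₂ z₁ hz₁ i).2 (by positivity)
  · intro i
    obtain ⟨W, hW⟩ := hSne i
    exact (hS i W hW).2.2.2.2.1.trans (h8 κ R A (G i) W hκ0 hκ' hR1 hA (hG i)).1
  · -- T3
    exact h10 κ R (R ^ (1 - ε₀)) A H G c S a b (fun i => (M₂ i : ℝ)) QQ l k X₂ hκ0 hκ hR1
      ((by linarith : C₁₀ ≤ C₂ + C₁₀).trans (g2.trans hCR)) hA hH hAH ⟨hc, hsep⟩
      (fun i => ⟨(hab i).1, (hab i).2, lt_of_lt_of_le one_pos (hM₂' i)⟩) hG hX₂sep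
      (fun i W hW => ⟨(hS i W hW).1, (hS i W hW).2.2.2.1, (hS i W hW).2.2.2.2.2⟩) hScard
      (fun i W hW => (hb i W hW).2) (fun i z hz => (hX₂M₂ z hz i).2)
      (fun i z hz => hXF z (hX₂X hz) i)

end Pool.Agent.H94.T3
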