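import Pool.Agent.H83.G.Chain
import Pool.Agent.H22.G4.BAS
import Pool.Agent.H22.G4.BRO
import Pool.Agent.H22.G4.MAIN
import Pool.Agent.H22.G4.NAR
import Pool.Agent.H22.G4.OEN
import Pool.Agent.H22.G4.REC
import Pool.Agent.H56.T3.MLS
import Pool.Agent.H96.T3.C3Q
import Pool.Agent.H96.T3.TRN
import Pool.Agent.H96.T3.TRV
import Pool.Agent.H94.T3.FIB
import Pool.Agent.H94.T3.TENY
import Pool.Agent.H81.GT.AllX

/-!
Theorem G (MP_ee74d2_an) in dimension 4: the chain with (T3), `x = 40/43`.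
-/

set_option autoImplicit false

namespace Pool.Agent.H94.T3.Chain

open Pool.Agent.H83.G Pool.Agent.H83.G.Chain Pool.Agent.H94.T3
open Pool.Agent.H22.G4

theorem t_FIB (hCHV : T_CHV) : T_FIB :=
  pf_FIB (Pool.Agent.H96.T3.TRV.pf_TRV Pool.Agent.H56.T3.pf_MLS hCHV
    Pool.Agent.H96.T3.TRN.pf_TRN)

theorem t_C3Q (hCHV : T_CHV) (hGBE : T_GBE) : T_C3Q :=
  Pool.Agent.H96.T3.C3Q.pf_C3Q (t_FIB hCHV) m_PKT hGBE m_TLS m_CBN m_PLN m_AMU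

theorem t_TE1 (hBD : Pool.Agent.H93.BD.T_MAIN) : Pool.Agent.H94.G4.T_TE1x :=
  Pool.Agent.H94.G4.pf_TE1x (m_RDP hBD) m_MSB m_PTW m_CBN

theorem t_TEN (hBD : Pool.Agent.H93.BD.T_MAIN) (hCHV : T_CHV) (hGBE : T_GBE) : T_TENy :=
  pf_TENy Pool.Agent.H22.G.pf_PG4 Pool.Agent.H22.G.pf_HG2 Pool.Agent.H22.G.pf_MU
    Pool.Agent.H22.G.pf_HB m_CBN (t_TE1 hBD) m_TE2 m_TE3 m_TLS m_AMU m_LWX (t_C3Q hCHV hGBE)

theorem x_BAS : T_BASx := Pool.Agent.H22.G4.BAS.pf_BASx m_SPK m_SPW m_PUX m_PLN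

theorem x_NAR : T_NARx := Pool.Agent.H22.G4.NAR.pf_NARx m_RSC m_PUB m_PUS m_LOA m_LOB m_LOI

theorem x_OEN (hGBE : T_GBE) : T_OENx := Pool.Agent.H22.G4.OEN.pf_OENx m_SSC hGBE m_AMU m_PLN

theorem x_BRO (hGBE : T_GBE) : T_BROx :=
  Pool.Agent.H22.G4.BRO.pf_BROx m_DCP m_TLS m_AMU m_AEN m_ENB m_PG1 m_PG2 m_PG3 (x_OEN hGBE)
    m_PSX m_LWX m_CBN m_WT3

theorem x_REC (hGBE : T_GBE) : T_RECx :=
  Pool.Agent.H22.G4.REC.pf_RECx x_BAS m_BRN x_NAR (x_BRO hGBE) m_CPC m_ENS m_PUX m_WT3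

theorem x_MAIN (hGBE : T_GBE) : T_MAINx :=
  Pool.Agent.H22.G4.MAIN.pf_MAINx (x_REC hGBE) x_BAS

/-- from the two-ends case to the level set estimate at all scales, in the form of group T -/
theorem gt_MAIN (hGBE : T_GBE) (m : ℕ) (x : ℝ) (hm : 1 ≤ m) (hx : 0 < x) (hx4 : x ≤ 4)
    (hmx : 2 < m * x) (hT : ∀ L, TENp m L x) : Pool.Agent.H81.GT.MAINx m x := by
  intro ε hε
  obtain ⟨C, hC, h⟩ := x_MAIN hGBE m (2 * m + 6) x ε hm hx hx4 hmx (hT _) le_rfl hε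
  exact ⟨2 * m + 6, C, le_rfl, hC, h⟩

theorem main4 (hBD : Pool.Agent.H93.BD.T_MAIN) (hCHV : T_CHV) (hGBE : T_GBE) :
    Pool.Agent.H81.GT.MAINx 3 (40 / 43) :=
  gt_MAIN hGBE 3 (40 / 43) (by norm_num) (by norm_num) (by norm_num) (by norm_num)
    fun L => t_TEN hBD hCHV hGBE 3 L (40 / 43) (by norm_num) (by norm_num) (by norm_num)
      (by norm_num) pf_A40

end Pool.Agent.H94.T3.Chain
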