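import Pool.Agent.H83.G.Targets5
import Pool.Agent.H22.G4.Targets
import Pool.Agent.H82.KL.Targets
import Pool.Agent.H81.GT.TargetsT

/-!
Theorem G in dimension 4 with the trilinear restriction theorem in cubes of side `R^{1/2}` (T3):
targets. Then `x = 40/43`, `p ≥ 126/43`.
-/

set_option autoImplicit false

namespace Pool.Agent.H94.T3

open MeasureTheory Set
open Pool.Agent.H83.G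
open scoped ENNReal NNReal RealInnerProductSpace

/-- MLS: trilinear restriction for the cone, with sums over separated points -/
def T_MLS : Prop := ∀ (d : ℕ) (Γ : Fin 3 → Set (Pool.Agent.H82.KL.EE d)) (ε : ℝ), 0 < ε →
  (∀ j, IsCompact (Γ j)) → (∀ j, (0 : Pool.Agent.H82.KL.EE d) ∉ Γ j) →
  Pool.Agent.H82.KL.Transv Γ → ∃ C : ℝ, 0 ≤ C ∧
  ∀ (R : ℝ) (b : Fin 3 → Pool.Agent.H82.KL.EE d → ℂ) (z₀ : Pool.Agent.H82.KL.EE d × ℝ)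
  (Y : Finset (Pool.Agent.H82.KL.EE d × ℝ)), 1 ≤ R →
  (∀ j, Continuous (b j)) → (∀ j ξ, b j ξ ≠ 0 → ξ ∈ Γ j) → Pool.Agent.H82.KL.Sep Y →
  (∀ z ∈ Y, dist z z₀ ≤ R) →
  ∑ z ∈ Y, ∏ j, ‖Pool.Agent.H82.KL.U (b j) z‖ ≤
    C * R ^ ε * ∏ j, Real.sqrt (∫ ξ, ‖b j ξ‖ ^ 2)

/-- the extension operator of the cone `b = |ξ|²/a` -/
noncomputable def V {m : ℕ} (g : ℝ × E m → ℂ) (z : Z m) : ℂ :=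
  ∫ ζ : ℝ × E m, e (z.1 * ζ.1 + ⟪z.2.1, ζ.2⟫ + z.2.2 * (‖ζ.2‖ ^ 2 / ζ.1)) * g ζ

/-- CHV: change of variables, `a = |ξ| + ξ_d`, `x = (y, v - w)`, `t = v + w` -/
def T_CHV : Prop := ∀ (m : ℕ) (D : ℝ) (g : ℝ × E m → ℂ), Continuous g →
  (∀ ζ, g ζ ≠ 0 → 1 / 4 ≤ ζ.1 ∧ ζ.1 ≤ 8 ∧ ‖ζ.2‖ ≤ D) →
  ∃ b : Pool.Agent.H82.KL.EE (m + 1) → ℂ, Continuous b ∧
  (∀ ξ, b ξ ≠ 0 → g (‖ξ‖ + ξ (Fin.last m), Pool.Agent.H83.LS.pr ξ) ≠ 0) ∧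
  (∀ z : Z m, Pool.Agent.H82.KL.U b (Pool.Agent.H81.GT.xz z, Pool.Agent.H81.GT.tz z) = V g z) ∧
  ∫ ξ, ‖b ξ‖ ^ 2 ≤ 2 * ∫ ζ, ‖g ζ‖ ^ 2

/-- the frequencies `ξ` with `1/4 ≤ a ≤ 8` and `|ξ'/a - c| ≤ ρ`, where `a = |ξ| + ξ_d` -/
def Gam {m : ℕ} (c : E m) (ρ : ℝ) : Set (Pool.Agent.H82.KL.EE (m + 1)) :=
  {ξ | 1 / 4 ≤ ‖ξ‖ + ξ (Fin.last m) ∧ ‖ξ‖ + ξ (Fin.last m) ≤ 8 ∧
    ‖(‖ξ‖ + ξ (Fin.last m))⁻¹ • Pool.Agent.H83.LS.pr ξ - c‖ ≤ ρ}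

/-- TRN: three separated caps are transversal -/
def T_TRN : Prop := ∀ (m : ℕ) (ρ : ℝ) (c : Fin 3 → E m), 0 ≤ ρ →
  (∀ i j, i ≠ j → 2 * ρ < ‖c i - c j‖) →
  (∀ j, IsCompact (Gam (c j) ρ)) ∧ (∀ j, (0 : Pool.Agent.H82.KL.EE (m + 1)) ∉ Gam (c j) ρ) ∧
  Pool.Agent.H82.KL.Transv (fun j => Gam (c j) ρ)

/-- three separated centres -/
def C3 {m : ℕ} (K : ℝ) (c : Fin 3 → E m) : Prop :=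
  (∀ i, ‖c i‖ ≤ 4 * m + 4) ∧ ∀ i j, i ≠ j → 4 / K ≤ ‖c i - c j‖

/-- TRV: the same in light cone coordinates, uniformly in the centres -/
def T_TRV : Prop := ∀ (m : ℕ) (K ε : ℝ), 1 ≤ m → 1 ≤ K → 0 < ε → ∃ C : ℝ, 0 ≤ C ∧
  ∀ (R : ℝ) (c : Fin 3 → E m) (g : Fin 3 → ℝ × E m → ℂ) (z₀ : Z m) (Y : Finset (Z m)), 1 ≤ R →
  C3 K c → (∀ i, Continuous (g i)) →
  (∀ i ζ, g i ζ ≠ 0 → 1 / 4 ≤ ζ.1 ∧ ζ.1 ≤ 8 ∧ ‖ζ.1⁻¹ • ζ.2 - c i‖ ≤ 5 / (4 * K)) →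
  Sep Y → (∀ z ∈ Y, ‖z - z₀‖ ≤ R) →
  ∑ z ∈ Y, ∏ i, ‖V (g i) z‖ ≤ C * R ^ ε * ∏ i, Real.sqrt (∫ ζ, ‖g i ζ‖ ^ 2)

/-- FIB: functions with frequencies in a neighbourhood of the cone -/
def T_FIB : Prop := ∀ (m : ℕ) (K ε : ℝ), 1 ≤ m → 1 ≤ K → 0 < ε → ∃ C : ℝ, 0 ≤ C ∧
  ∀ (R ρ : ℝ) (c : Fin 3 → E m) (G : Fin 3 → Z m → ℂ) (z₀ : Z m) (Y : Finset (Z m)), 1 ≤ R →
  0 ≤ ρ → C3 K c → (∀ i, TC (G i)) →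
  (∀ i ζ, G i ζ ≠ 0 → 1 / 4 ≤ ζ.1 ∧ ζ.1 ≤ 8 ∧ ‖ζ.1⁻¹ • ζ.2.1 - c i‖ ≤ 5 / (4 * K) ∧
    |ζ.2.2 - ‖ζ.2.1‖ ^ 2 / ζ.1| ≤ ρ) →
  Sep Y → (∀ z ∈ Y, ‖z - z₀‖ ≤ R) →
  ∑ z ∈ Y, ∏ i, ‖TF (G i) z‖ ≤
    C * R ^ ε * ρ ^ (3 / 2 : ℝ) * ∏ i, Real.sqrt (∫ ζ, ‖G i ζ‖ ^ 2)

open scoped Classical in
/-- C3Q: trilinear restriction in the cubes of side `R^{1/2}`, three families of wave packets (the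
hypotheses are those of TE2 for the three families) -/
def T_C3Q : Prop := ∀ (m L : ℕ) (β : E m → ℂ) (Ψ Ξ : Z m → ℂ) (ψ χ : Z m → ℝ)
  (K δ b₀ B : ℝ), 1 ≤ m → IsPU β → IsPsi Ψ ψ → IsLow Ξ χ → 1 ≤ K → 0 < δ → δ ≤ 1 / 100 →
  0 < b₀ → 1 ≤ B → ∀ N : ℕ, m + 3 ≤ N → ∃ C : ℝ, 1 ≤ C ∧ ∀ (κ R r A H : ℝ)
  (G : Fin 3 → Z m → ℂ) (c : Fin 3 → E m) (S : Fin 3 → Finset (Pk m)) (a b M : Fin 3 → ℝ)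
  (QQ : Finset (Zi m)) (l k : Fin 3 → ℕ) (X : Finset (Z m)), 0 ≤ κ → κ ≤ 3 / 8 →
  1 ≤ R → C ≤ R ^ δ → 0 < A → 0 < H → b₀ * A ≤ R ^ δ * H → C3 K c →
  (∀ i, 0 < a i ∧ 1 ≤ b i ∧ 0 < M i) → (∀ i, Cls L κ R A (G i)) → Sep X →
  (∀ i, ∀ W ∈ S i, W.1 ∈ Ks m (sR R) ∧ ‖ctr (sR R) W.1 - c i‖ ≤ 1 / K + sR R ∧
    al N β R δ (G i) W ≤ 2 * a i) →
  (∀ i, ((S i).card : ℝ) ≤ B * R ^ (2 * ((m : ℝ) + 2))) →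
  (∀ i, ∀ W ∈ S i, (((S i).filter (fun W' => tb R W' = tb R W)).card : ℝ) ≤ 2 * b i) →
  (∀ i, ∀ z ∈ X, ((((S i).image (tb R)).filter (fun T => Inc R δ T (cb (Real.sqrt R) z) ∧
    Sh QQ R r δ (l i) (k i) T (bl R r (cb (Real.sqrt R) z)))).card : ℝ) ≤ 2 * M i) →
  (∀ i, ∀ z ∈ X, H ≤ ‖∑ W ∈ SB QQ R r δ (l i) (k i) (S i) (bl R r (cb (Real.sqrt R) z)),
    Fp β ψ R δ (G i) W z‖) →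
  (X.card : ℝ) * H ^ 3 ≤ C * R ^ (2 * lo m * δ) * (X.image (cb (Real.sqrt R))).card *
    Real.sqrt ((M 0 * b 0 * a 0 ^ 2) * (M 1 * b 1 * a 1 ^ 2) * (M 2 * b 2 * a 2 ^ 2)) *
      R ^ (3 * (m : ℝ) / 4)

/-- the final linear programme with (T3) -/
def T_ALGy (m : ℕ) (x : ℝ) : Prop := ∀ (N H q E A L R : ℝ) (M1 M t b a : Fin 3 → ℝ),
  0 < N → 0 < H → 0 < q → 0 < E → 0 < A → 1 ≤ L → 1 ≤ R →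
  (∀ i, 0 < M1 i) → (∀ i, 0 < M i) → (∀ i, 0 < t i) → (∀ i, 1 ≤ b i) → (∀ i, 0 < a i) →
  (∀ i, t i * b i * a i ^ 2 * R ^ ((m : ℝ) / 2) ≤ L * E) →
  E ≤ L * A ^ 2 * R ^ ((m : ℝ) + 1) →
  (∀ i, q * M i ≤ L * t i * R ^ (1 / 2 : ℝ)) →
  (∀ i j, i ≠ j → q * M i * M j ^ 2 ≤ L * t i * t j) →
  N * (M1 0 * M1 1 * M1 2) ≤
    L * q * ((M 0 * b 0) * (M 1 * b 1) * (M 2 * b 2)) * R ^ (((m : ℝ) - 1) / 2) →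
  (∀ i, N * H ^ 2 ≤ L * q * M i * b i * a i ^ 2 * R ^ (((m : ℝ) + 1) / 2)) →
  (∀ i, N * H ^ (2 * ((m : ℝ) + 2) / m) ≤
    L * M1 i ^ (2 / (m : ℝ)) * a i ^ (2 * ((m : ℝ) + 2) / m) * t i * b i *
      R ^ (((m : ℝ) + 2) / 2)) →
  (∀ i, M1 i ≤ L * M i) → (∀ i, a i ≤ L * A) →
  N * H ^ 3 ≤ L * q * Real.sqrt ((M 0 * b 0 * a 0 ^ 2) * (M 1 * b 1 * a 1 ^ 2) *
    (M 2 * b 2 * a 2 ^ 2)) * R ^ (3 * (m : ℝ) / 4) →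
  N * H ^ (2 + x) ≤ L ^ 4 * A ^ x * R ^ ((m : ℝ) * x / 2) * E

/-- A40: the exponent `40/43` for `m = 3` -/
def T_A40 : Prop := T_ALGy 3 (40 / 43)

/-- TENy: the two-ends case from the linear programme with (T3) -/
def T_TENy : Prop := ∀ (m L : ℕ) (x : ℝ), 1 ≤ m → 0 < x → x ≤ 4 → 2 < m * x → T_ALGy m x →
  Pool.Agent.H22.G4.TENp m L x

end Pool.Agent.H94.T3
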